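import Mathlib

/-!
# A weighted pendulum equation: a solution with a wrong sign
-/

set_option autoImplicit false

namespace Pool.Agent.R228.PW

open Real MeasureTheory Filter Topology

/-- A weight: measurable and bounded between two positive constants almost everywhere. -/
def IsWeight (a : ℝ → ℝ) : Prop :=
  Measurable a ∧ ∃ a₀ A₀ : ℝ, 0 < a₀ ∧ ∀ᵐ x : ℝ, a₀ ≤ a x ∧ a x ≤ A₀

/-- `φ` is locally absolutely continuous with square integrable derivative `g`. -/
def HasWeakDeriv (φ g : ℝ → ℝ) : Prop :=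
  MemLp g 2 volume ∧ ∀ x, φ x = φ 0 + ∫ t in (0 : ℝ)..x, g t

/-- The weighted pendulum equation on `ℝ \ {0}` in the sense of distributions. -/
def Solves (a φ g : ℝ → ℝ) : Prop :=
  ∀ ζ : ℝ → ℝ, ContDiff ℝ (⊤ : ℕ∞) ζ → HasCompactSupport ζ → (0 : ℝ) ∉ tsupport ζ →
    ∫ x, a x * g x * deriv ζ x = ∫ x, a x * (Real.sin (φ x) * Real.cos (φ x)) * ζ x

/-- The constraints. -/
def Constraint (φ : ℝ → ℝ) : Prop :=
  φ 0 = 0 ∧ Tendsto φ atTop (𝓝 (π / 2)) ∧ Tendsto φ atBot (𝓝 (-(π / 2)))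

/-- The Gudermannian. -/
noncomputable def G (x : ℝ) : ℝ := 2 * Real.arctan (Real.exp x) - π / 2

theorem cos_G (x : ℝ) : Real.cos (G x) = 2 * Real.exp x / (1 + Real.exp x ^ 2) := by
  unfold G
  rw [Real.cos_sub_pi_div_two, Real.sin_two_mul, Real.sin_arctan, Real.cos_arctan]
  have h : (0 : ℝ) < 1 + Real.exp x ^ 2 := by positivity
  have h2 : Real.sqrt (1 + Real.exp x ^ 2) * Real.sqrt (1 + Real.exp x ^ 2) =
      1 + Real.exp x ^ 2 := Real.mul_self_sqrt h.le
  rw [show 2 * (Real.exp x / √(1 + Real.exp x ^ 2)) * (1 / √(1 + Real.exp x ^ 2)) =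
    2 * Real.exp x / (√(1 + Real.exp x ^ 2) * √(1 + Real.exp x ^ 2)) by
      field_simp, h2]

theorem hasDerivAt_G (x : ℝ) : HasDerivAt G (Real.cos (G x)) x := by
  rw [cos_G]
  have h1 : HasDerivAt (fun x => 2 * Real.arctan (Real.exp x) - π / 2)
      (2 * (1 / (1 + Real.exp x ^ 2) * Real.exp x)) x :=
    (((Real.hasDerivAt_exp x).arctan).const_mul 2).sub_const _
  refine h1.congr_deriv ?_
  ring

theorem continuous_G : Continuous G := by
  unfold G
  exact (continuous_const.mul (Real.continuous_arctan.comp Real.continuous_exp)).sub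
    continuous_const

theorem G_zero : G 0 = 0 := by
  unfold G
  rw [Real.exp_zero, Real.arctan_one]
  ring

theorem G_top : Tendsto G atTop (𝓝 (π / 2)) := by
  have h1 : Tendsto (fun x => Real.arctan (Real.exp x)) atTop (𝓝 (π / 2)) :=
    (Real.tendsto_arctan_atTop.mono_right nhdsWithin_le_nhds).comp Real.tendsto_exp_atTop
  have h2 := (h1.const_mul 2).sub_const (π / 2)
  have e : 2 * (π / 2) - π / 2 = π / 2 := by ring
  rw [e] at h2
  exact h2

theorem G_bot : Tendsto G atBot (𝓝 (-(π / 2))) := by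
  have h1 : Tendsto (fun x => Real.arctan (Real.exp x)) atBot (𝓝 (Real.arctan 0)) :=
    (Real.continuous_arctan.tendsto 0).comp Real.tendsto_exp_atBot
  have h2 := (h1.const_mul 2).sub_const (π / 2)
  rw [Real.arctan_zero] at h2
  have e : (2 : ℝ) * 0 - π / 2 = -(π / 2) := by ring
  rw [e] at h2
  exact h2

theorem cos_G_pos (x : ℝ) : 0 < Real.cos (G x) := by
  rw [cos_G]
  positivity

theorem cos_G_sq_le (x : ℝ) : Real.cos (G x) ^ 2 ≤ (1 + x ^ 2)⁻¹ := by
  rw [cos_G]
  have h1 : 0 < Real.exp x := Real.exp_pos x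
  have h2 : Real.cosh x = (1 + Real.exp x ^ 2) / (2 * Real.exp x) := by
    rw [Real.cosh_eq, Real.exp_neg]
    field_simp
    ring
  have h3 : 2 * Real.exp x / (1 + Real.exp x ^ 2) = (Real.cosh x)⁻¹ := by
    rw [h2, inv_div]
  rw [h3, inv_pow]
  have h4 : 1 + x ^ 2 ≤ Real.cosh x ^ 2 := by
    rw [Real.cosh_sq]
    have h5 : |x| ≤ |Real.sinh x| := by
      rcases le_total 0 x with h | h
      · rw [abs_of_nonneg h, abs_of_nonneg (Real.sinh_nonneg_iff.2 h)]
        exact Real.self_le_sinh_iff.2 h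
      · rw [abs_of_nonpos h, abs_of_nonpos (Real.sinh_nonpos_iff.2 h)]
        have := Real.sinh_le_self_iff.2 h
        linarith
    have h6 := sq_le_sq' (by linarith [abs_nonneg (Real.sinh x), abs_nonneg x]) h5
    rw [sq_abs, sq_abs] at h6
    linarith
  exact inv_anti₀ (by positivity) h4

/-- The sine of the middle piece. -/
noncomputable def s (x : ℝ) : ℝ := -(3 / 5 * Real.sin (4 * x / 5))

/-- The derivative of `s`. -/
noncomputable def s' (x : ℝ) : ℝ := -(12 / 25 * Real.cos (4 * x / 5))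

/-- The middle piece. -/
noncomputable def M (x : ℝ) : ℝ := Real.arcsin (s x)

/-- The auxiliary factor. -/
noncomputable def w (x : ℝ) : ℝ := Real.exp (9 / 64 * Real.cos (8 * x / 5))

theorem s_sq (x : ℝ) : 16 / 25 ≤ 1 - s x ^ 2 := by
  unfold s
  have := Real.sin_sq_add_cos_sq (4 * x / 5)
  have := sq_nonneg (Real.cos (4 * x / 5))
  nlinarith

theorem s_lt (x : ℝ) : -1 < s x ∧ s x < 1 := by
  have h := s_sq x
  constructor <;> nlinarith

theorem cos_M (x : ℝ) : Real.cos (M x) = √(1 - s x ^ 2) := Real.cos_arcsin _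

theorem sin_M (x : ℝ) : Real.sin (M x) = s x := Real.sin_arcsin (s_lt x).1.le (s_lt x).2.le

theorem cos_M_ge (x : ℝ) : 4 / 5 ≤ Real.cos (M x) := by
  rw [cos_M]
  apply Real.le_sqrt_of_sq_le
  have := s_sq x
  linarith

theorem hasDerivAt_s (x : ℝ) : HasDerivAt s (s' x) x := by
  have h1 : HasDerivAt (fun x : ℝ => 4 * x / 5) (4 / 5) x := by
    have := ((hasDerivAt_id x).const_mul (4 : ℝ)).div_const 5
    simpa using this
  have h2 := (h1.sin.const_mul (3 / 5)).neg
  refine h2.congr_deriv ?_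
  unfold s'
  ring

theorem hasDerivAt_s' (x : ℝ) : HasDerivAt s' (48 / 125 * Real.sin (4 * x / 5)) x := by
  have h1 : HasDerivAt (fun x : ℝ => 4 * x / 5) (4 / 5) x := by
    have := ((hasDerivAt_id x).const_mul (4 : ℝ)).div_const 5
    simpa using this
  have h2 := (h1.cos.const_mul (12 / 25)).neg
  refine h2.congr_deriv ?_
  ring

theorem hasDerivAt_w (x : ℝ) : HasDerivAt w (-(9 / 40 * Real.sin (8 * x / 5)) * w x) x := by
  have h1 : HasDerivAt (fun x : ℝ => 8 * x / 5) (8 / 5) x := by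
    have := ((hasDerivAt_id x).const_mul (8 : ℝ)).div_const 5
    simpa using this
  have h2 := (h1.cos.const_mul (9 / 64)).exp
  refine h2.congr_deriv ?_
  unfold w
  ring

theorem hasDerivAt_M (x : ℝ) : HasDerivAt M (s' x / Real.cos (M x)) x := by
  have h1 := (Real.hasDerivAt_arcsin (s_lt x).1.ne' (s_lt x).2.ne).comp x (hasDerivAt_s x)
  refine h1.congr_deriv ?_
  rw [cos_M]
  ring

/-- The momentum identity in the middle piece. -/
theorem hasDerivAt_p (x : ℝ) : HasDerivAt (fun x => w x * s' x)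
    (-(Real.cos (M x) * w x * (Real.sin (M x) * Real.cos (M x)))) x := by
  have h1 := (hasDerivAt_w x).mul (hasDerivAt_s' x)
  refine h1.congr_deriv ?_
  have h2 : Real.cos (M x) * Real.cos (M x) = 1 - s x ^ 2 := by
    have := Real.sin_sq_add_cos_sq (M x)
    rw [sin_M] at this
    linarith
  have h3 : Real.sin (8 * x / 5) = 2 * Real.sin (4 * x / 5) * Real.cos (4 * x / 5) := by
    rw [← Real.sin_two_mul]
    congr 1
    ring
  have h4 : -(Real.cos (M x) * w x * (Real.sin (M x) * Real.cos (M x))) =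
      -(w x * Real.sin (M x) * (Real.cos (M x) * Real.cos (M x))) := by ring
  rw [h4, h2, sin_M, h3]
  unfold s s'
  have h5 := Real.sin_sq_add_cos_sq (4 * x / 5)
  have h6 : Real.sin (4 * x / 5) ^ 2 = 1 - Real.cos (4 * x / 5) ^ 2 := by linarith
  have h7 : Real.sin (4 * x / 5) ^ 3 =
      Real.sin (4 * x / 5) * (1 - Real.cos (4 * x / 5) ^ 2) := by
    rw [← h6]
    ring
  ring_nf
  ring_nf at h7
  rw [h7]
  ring

end Pool.Agent.R228.PW
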