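import Pool.Agent.R228.PW.Basic

/-!
# The counterexample
-/

set_option autoImplicit false

namespace Pool.Agent.R228.PW

open Real MeasureTheory Filter Topology

/-- The half period of the middle piece. -/
noncomputable def x₀ : ℝ := 5 * π / 4

theorem x₀_pos : 0 < x₀ := by
  unfold x₀
  positivity

/-- The weight on the right. -/
noncomputable def A₂ : ℝ := Real.exp (9 / 64) * (12 / 25)

theorem A₂_pos : 0 < A₂ := by
  unfold A₂
  positivity

/-- The solution. -/
noncomputable def φ (x : ℝ) : ℝ := if x ≤ 0 then G x else if x ≤ x₀ then M x else G (x - x₀)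

/-- Its derivative. -/
noncomputable def g (x : ℝ) : ℝ :=
  if x ≤ 0 then Real.cos (G x) else if x ≤ x₀ then s' x / Real.cos (M x) else
    Real.cos (G (x - x₀))

/-- The weight. -/
noncomputable def a (x : ℝ) : ℝ :=
  if x ≤ 0 then 1 else if x ≤ x₀ then Real.cos (M x) * w x else A₂

/-- The momentum on the right half line. -/
noncomputable def p (x : ℝ) : ℝ := if x ≤ x₀ then w x * s' x else A₂ * Real.cos (G (x - x₀))

theorem s_zero : s 0 = 0 := by simp [s]

theorem s_x₀ : s x₀ = 0 := by
  unfold s x₀
  rw [show 4 * (5 * π / 4) / 5 = π by ring, Real.sin_pi]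
  ring

theorem M_zero : M 0 = 0 := by
  unfold M
  rw [s_zero, Real.arcsin_zero]

theorem M_x₀ : M x₀ = 0 := by
  unfold M
  rw [s_x₀, Real.arcsin_zero]

theorem continuous_M : Continuous M := by
  refine continuous_iff_continuousAt.2 fun x => (hasDerivAt_M x).continuousAt

theorem continuous_s' : Continuous s' :=
  continuous_iff_continuousAt.2 fun x => (hasDerivAt_s' x).continuousAt

theorem continuous_w : Continuous w :=
  continuous_iff_continuousAt.2 fun x => (hasDerivAt_w x).continuousAt

theorem continuous_φ : Continuous φ := by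
  unfold φ
  refine Continuous.if_le continuous_G ?_ continuous_id continuous_const ?_
  · refine Continuous.if_le continuous_M (continuous_G.comp (continuous_id.sub continuous_const))
      continuous_id continuous_const ?_
    intro x hx
    have : x = x₀ := hx
    rw [this, M_x₀]
    simp only [Function.comp, id, sub_self]
    exact G_zero.symm
  · intro x hx
    have : x = 0 := hx
    rw [this, G_zero, if_pos x₀_pos.le, M_zero]

theorem continuous_p : Continuous p := by
  unfold p
  refine Continuous.if_le (continuous_w.mul continuous_s')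
    (continuous_const.mul (Real.continuous_cos.comp
      (continuous_G.comp (continuous_id.sub continuous_const)))) continuous_id continuous_const ?_
  intro x hx
  have : x = x₀ := hx
  rw [this]
  simp only [Function.comp, id, sub_self, G_zero, Real.cos_zero, mul_one]
  unfold w s' x₀ A₂
  rw [show 8 * (5 * π / 4) / 5 = 2 * π by ring, show 4 * (5 * π / 4) / 5 = π by ring,
    Real.cos_two_pi, Real.cos_pi]
  ring_nf

theorem measurable_g : Measurable g := by
  unfold g
  refine Measurable.ite measurableSet_Iic ?_ (Measurable.ite measurableSet_Iic ?_ ?_)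
  · exact (Real.continuous_cos.comp continuous_G).measurable
  · exact continuous_s'.measurable.div (Real.continuous_cos.comp continuous_M).measurable
  · exact (Real.continuous_cos.comp
      (continuous_G.comp (continuous_id.sub continuous_const))).measurable

theorem measurable_a : Measurable a := by
  unfold a
  refine Measurable.ite measurableSet_Iic measurable_const
    (Measurable.ite measurableSet_Iic ?_ measurable_const)
  exact ((Real.continuous_cos.comp continuous_M).mul continuous_w).measurable

theorem w_bounds (x : ℝ) : Real.exp (-(9 / 64)) ≤ w x ∧ w x ≤ Real.exp (9 / 64) := by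
  unfold w
  have h1 := Real.neg_one_le_cos (8 * x / 5)
  have h2 := Real.cos_le_one (8 * x / 5)
  constructor <;> apply Real.exp_le_exp.2 <;> linarith

theorem isWeight_a : IsWeight a := by
  refine ⟨measurable_a, min (min 1 (4 / 5 * Real.exp (-(9 / 64)))) A₂,
    max (max 1 (Real.exp (9 / 64))) A₂, ?_, Filter.Eventually.of_forall fun x => ?_⟩
  · have := A₂_pos
    have := Real.exp_pos (-(9 / 64))
    refine lt_min (lt_min one_pos (by positivity)) A₂_pos
  · unfold a
    have hw := w_bounds x
    have hc := cos_M_ge x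
    have hc1 := Real.cos_le_one (M x)
    have he := Real.exp_pos (-(9 / 64) : ℝ)
    split_ifs
    · exact ⟨(min_le_left _ _).trans (min_le_left _ _), (le_max_left _ _).trans (le_max_left _ _)⟩
    · constructor
      · refine ((min_le_left _ _).trans (min_le_right _ _)).trans ?_
        exact mul_le_mul hc hw.1 he.le (by linarith)
      · refine le_trans ?_ ((le_max_right _ _).trans (le_max_left _ _))
        calc Real.cos (M x) * w x ≤ 1 * w x :=
              mul_le_mul_of_nonneg_right hc1 (he.le.trans hw.1)
          _ ≤ Real.exp (9 / 64) := by rw [one_mul]; exact hw.2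
    · exact ⟨min_le_right _ _, le_max_right _ _⟩

theorem abs_g_le (x : ℝ) : |g x| ≤ 1 := by
  unfold g
  split_ifs
  · exact Real.abs_cos_le_one _
  · rw [abs_div, abs_of_pos (lt_of_lt_of_le (by norm_num) (cos_M_ge x)), div_le_one
      (lt_of_lt_of_le (by norm_num) (cos_M_ge x))]
    refine le_trans ?_ (cos_M_ge x)
    unfold s'
    rw [abs_neg, abs_mul]
    have := Real.abs_cos_le_one (4 * x / 5)
    norm_num
    linarith
  · exact Real.abs_cos_le_one _

theorem intervalIntegrable_g (α β : ℝ) : IntervalIntegrable g volume α β := by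
  refine IntervalIntegrable.mono_fun' (g := fun _ => (1 : ℝ)) intervalIntegrable_const
    measurable_g.aestronglyMeasurable (Filter.Eventually.of_forall fun x => ?_)
  simp only [Real.norm_eq_abs]
  exact abs_g_le x

theorem hasDerivAt_φ {x : ℝ} (h0 : x ≠ 0) (h1 : x ≠ x₀) : HasDerivAt φ (g x) x := by
  have hx₀ := x₀_pos
  rcases lt_or_gt_of_ne h0 with h | h
  · have e : φ =ᶠ[𝓝 x] G := by
      filter_upwards [Iio_mem_nhds h] with y hy
      unfold φ
      rw [if_pos (le_of_lt hy)]
    rw [show g x = Real.cos (G x) by unfold g; rw [if_pos h.le]]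
    exact (hasDerivAt_G x).congr_of_eventuallyEq e
  · rcases lt_or_gt_of_ne h1 with h' | h'
    · have e : φ =ᶠ[𝓝 x] M := by
        filter_upwards [Ioo_mem_nhds h h'] with y hy
        unfold φ
        rw [if_neg (not_le.2 hy.1), if_pos hy.2.le]
      rw [show g x = s' x / Real.cos (M x) by
        unfold g
        rw [if_neg (not_le.2 h), if_pos h'.le]]
      exact (hasDerivAt_M x).congr_of_eventuallyEq e
    · have e : φ =ᶠ[𝓝 x] fun y => G (y - x₀) := by
        filter_upwards [Ioi_mem_nhds h'] with y hy
        unfold φ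
        rw [if_neg (not_le.2 (hx₀.trans hy)), if_neg (not_le.2 hy)]
      rw [show g x = Real.cos (G (x - x₀)) by
        unfold g
        rw [if_neg (not_le.2 (hx₀.trans h')), if_neg (not_le.2 h')]]
      exact ((hasDerivAt_G (x - x₀)).comp_sub_const x x₀).congr_of_eventuallyEq e

theorem hasDerivAt_p' {x : ℝ} (h0 : 0 < x) (h1 : x ≠ x₀) :
    HasDerivAt p (-(a x * (Real.sin (φ x) * Real.cos (φ x)))) x := by
  rcases lt_or_gt_of_ne h1 with h' | h'
  · have e : p =ᶠ[𝓝 x] fun y => w y * s' y := by
      filter_upwards [Iio_mem_nhds h'] with y hy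
      unfold p
      rw [if_pos (le_of_lt hy)]
    have hφ : φ x = M x := by
      unfold φ
      rw [if_neg (not_le.2 h0), if_pos h'.le]
    have ha : a x = Real.cos (M x) * w x := by
      unfold a
      rw [if_neg (not_le.2 h0), if_pos h'.le]
    rw [hφ, ha]
    exact (hasDerivAt_p x).congr_of_eventuallyEq e
  · have e : p =ᶠ[𝓝 x] fun y => A₂ * Real.cos (G (y - x₀)) := by
      filter_upwards [Ioi_mem_nhds h'] with y hy
      unfold p
      rw [if_neg (not_le.2 hy)]
    have hφ : φ x = G (x - x₀) := by
      unfold φ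
      rw [if_neg (not_le.2 h0), if_neg (not_le.2 h')]
    have ha : a x = A₂ := by
      unfold a
      rw [if_neg (not_le.2 h0), if_neg (not_le.2 h')]
    rw [hφ, ha]
    have h2 := (((hasDerivAt_G (x - x₀)).cos).comp_sub_const x x₀).const_mul A₂
    refine (h2.congr_of_eventuallyEq e).congr_deriv ?_
    ring

theorem p_eq {x : ℝ} (h0 : 0 < x) : a x * g x = p x := by
  unfold a g p
  rw [if_neg (not_le.2 h0), if_neg (not_le.2 h0)]
  split_ifs
  · have := cos_M_ge x
    have h : Real.cos (M x) ≠ 0 := by linarith
    field_simp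
  · rfl

theorem hasWeakDeriv : HasWeakDeriv φ g := by
  constructor
  · rw [memLp_two_iff_integrable_sq measurable_g.aestronglyMeasurable]
    have i1 : Integrable (fun x : ℝ => (1 + x ^ 2)⁻¹) volume := integrable_inv_one_add_sq
    have i2 : Integrable (fun x : ℝ => (1 + (x - x₀) ^ 2)⁻¹) volume := i1.comp_sub_right x₀
    have i3 : Integrable (Set.indicator (Set.Icc 0 x₀) fun _ => (1 : ℝ)) volume :=
      (integrable_indicator_iff measurableSet_Icc).2 (by simp [IntegrableOn])
    refine ((i1.add i2).add i3).mono' (measurable_g.pow_const 2).aestronglyMeasurable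
      (Filter.Eventually.of_forall fun x => ?_)
    rw [Real.norm_eq_abs, abs_of_nonneg (sq_nonneg _)]
    simp only [Pi.add_apply]
    have p1 : 0 ≤ (1 + x ^ 2)⁻¹ := by positivity
    have p2 : 0 ≤ (1 + (x - x₀) ^ 2)⁻¹ := by positivity
    have p3 : 0 ≤ Set.indicator (Set.Icc 0 x₀) (fun _ => (1 : ℝ)) x :=
      Set.indicator_nonneg (fun _ _ => zero_le_one) x
    by_cases h0 : x ≤ 0
    · have : g x ^ 2 ≤ (1 + x ^ 2)⁻¹ := by
        unfold g
        rw [if_pos h0]
        exact cos_G_sq_le x
      linarith
    · by_cases h1 : x ≤ x₀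
      · have h2 : Set.indicator (Set.Icc 0 x₀) (fun _ => (1 : ℝ)) x = 1 :=
          Set.indicator_of_mem (Set.mem_Icc.2 ⟨(not_le.1 h0).le, h1⟩) _
        have h3 : g x ^ 2 ≤ 1 := by
          have := abs_g_le x
          rw [← sq_abs]
          nlinarith [abs_nonneg (g x)]
        linarith
      · have : g x ^ 2 ≤ (1 + (x - x₀) ^ 2)⁻¹ := by
          unfold g
          rw [if_neg h0, if_neg h1]
          exact cos_G_sq_le _
        linarith
  · intro x
    have h := MeasureTheory.integral_eq_of_hasDerivAt_off_countable φ g (a := 0) (b := x)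
      (s := {0, x₀}) ((Set.finite_singleton x₀).insert 0).countable continuous_φ.continuousOn
      (fun y hy => hasDerivAt_φ (fun h => hy.2 (by simp [h])) (fun h => hy.2 (by simp [h])))
      (intervalIntegrable_g 0 x)
    rw [h]
    ring

theorem constraint : Constraint φ := by
  have hx₀ := x₀_pos
  refine ⟨?_, ?_, ?_⟩
  · unfold φ
    rw [if_pos le_rfl, G_zero]
  · have h1 : Tendsto (fun x => G (x - x₀)) atTop (𝓝 (π / 2)) :=
      G_top.comp (tendsto_atTop_add_const_right _ _ tendsto_id)
    refine h1.congr' ?_
    filter_upwards [eventually_gt_atTop x₀] with x hx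
    unfold φ
    rw [if_neg (not_le.2 (hx₀.trans hx)), if_neg (not_le.2 hx)]
  · refine G_bot.congr' ?_
    filter_upwards [eventually_le_atBot 0] with x hx
    unfold φ
    rw [if_pos hx]

/-- The weak form on one side. -/
theorem side {P Q ζ : ℝ → ℝ} {α β : ℝ} (hαβ : α ≤ β) (hP : Continuous P)
    (hd : ∀ x ∈ Set.Ioo α β, x ≠ x₀ → HasDerivAt P (-(Q x)) x) (hζ : ContDiff ℝ 1 ζ)
    (h0 : ζ α = 0) (h1 : ζ β = 0) (hQ : IntervalIntegrable (fun x => Q x * ζ x) volume α β) :
    ∫ x in α..β, P x * deriv ζ x = ∫ x in α..β, Q x * ζ x := by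
  have hdζ : Continuous (deriv ζ) := hζ.continuous_deriv le_rfl
  have hi : IntervalIntegrable (fun x => P x * deriv ζ x) volume α β :=
    (hP.mul hdζ).intervalIntegrable _ _
  have h := MeasureTheory.integral_eq_of_hasDerivAt_off_countable (fun x => P x * ζ x)
    (fun x => P x * deriv ζ x - Q x * ζ x) (a := α) (b := β)
    (s := {x₀}) (Set.countable_singleton _) (hP.mul hζ.continuous).continuousOn
    (fun y hy => by
      rw [min_eq_left hαβ, max_eq_right hαβ] at hy
      have h2 := (hd y hy.1 (fun h => hy.2 (by simp [h]))).mul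
        ((hζ.differentiable one_ne_zero) y).hasDerivAt
      refine h2.congr_deriv ?_
      ring)
    (hi.sub hQ)
  rw [intervalIntegral.integral_sub hi hQ, h0, h1] at h
  linarith

theorem solves : Solves a φ g := by
  intro ζ hζ hc h0
  have hx₀ := x₀_pos
  have hζ1 : ContDiff ℝ 1 ζ := hζ.of_le (by exact_mod_cast le_top)
  have hζc : Continuous ζ := hζ.continuous
  have hdζ : Continuous (deriv ζ) := hζ1.continuous_deriv le_rfl
  obtain ⟨R, hR⟩ := hc.isCompact.isBounded.subset_closedBall (0 : ℝ)
  set R' := max R 0 + 1 with hR'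
  have hR'0 : 0 < R' := by
    have := le_max_right R 0
    linarith
  have hsub : ∀ x, x ∈ tsupport ζ → |x| < R' := by
    intro x hx
    have h1 := hR hx
    rw [Metric.mem_closedBall, Real.dist_eq, sub_zero] at h1
    have := le_max_left R 0
    linarith
  have hz : ∀ x, R' ≤ |x| → ζ x = 0 := by
    intro x hx
    by_contra hne
    exact absurd (hsub x (subset_tsupport ζ hne)) (not_lt.2 hx)
  have hz0 : ζ 0 = 0 := by
    by_contra hne
    exact h0 (subset_tsupport ζ hne)
  have s1 : Function.support (fun x => a x * g x * deriv ζ x) ⊆ Set.Ioc (-R') R' := by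
    intro x hx
    have h1 : deriv ζ x ≠ 0 := by
      intro h
      exact hx (by simp [h])
    have h2 := hsub x (support_deriv_subset h1)
    rw [abs_lt] at h2
    exact ⟨h2.1, h2.2.le⟩
  have s2 : Function.support (fun x => a x * (Real.sin (φ x) * Real.cos (φ x)) * ζ x) ⊆
      Set.Ioc (-R') R' := by
    intro x hx
    have h1 : ζ x ≠ 0 := by
      intro h
      exact hx (by simp [h])
    have h2 := hsub x (subset_tsupport ζ h1)
    rw [abs_lt] at h2
    exact ⟨h2.1, h2.2.le⟩
  rw [← intervalIntegral.integral_eq_integral_of_support_subset s1,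
    ← intervalIntegral.integral_eq_integral_of_support_subset s2]
  -- integrability
  obtain ⟨_, a₀, A₀, ha₀, haA⟩ := isWeight_a
  have iQ : ∀ α β, IntervalIntegrable
      (fun x => a x * (Real.sin (φ x) * Real.cos (φ x)) * ζ x) volume α β := by
    intro α β
    have h1 : IntervalIntegrable (fun x => A₀ * |ζ x|) volume α β :=
      (continuous_const.mul hζc.abs).intervalIntegrable _ _
    refine h1.mono_fun' ?_ ?_
    · exact ((measurable_a.mul ((Real.continuous_sin.comp continuous_φ).measurable.mul
        (Real.continuous_cos.comp continuous_φ).measurable)).mul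
        hζc.measurable).aestronglyMeasurable
    · refine ae_restrict_of_ae ?_
      filter_upwards [haA] with x hx
      rw [Real.norm_eq_abs, abs_mul, abs_mul, abs_mul, abs_of_pos (ha₀.trans_le hx.1)]
      have h2 : |Real.sin (φ x)| * |Real.cos (φ x)| ≤ 1 * 1 :=
        mul_le_mul (Real.abs_sin_le_one _) (Real.abs_cos_le_one _) (abs_nonneg _) zero_le_one
      have h3 : 0 ≤ |Real.sin (φ x)| * |Real.cos (φ x)| := by positivity
      have h4 : a x * (|Real.sin (φ x)| * |Real.cos (φ x)|) ≤ A₀ * 1 :=
        mul_le_mul hx.2 (by linarith) h3 ((ha₀.trans_le hx.1).le.trans hx.2)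
      calc a x * (|Real.sin (φ x)| * |Real.cos (φ x)|) * |ζ x| ≤ A₀ * 1 * |ζ x| :=
            mul_le_mul_of_nonneg_right h4 (abs_nonneg _)
        _ = A₀ * |ζ x| := by ring
  have iP : ∀ α β, IntervalIntegrable (fun x => a x * g x * deriv ζ x) volume α β := by
    intro α β
    have h1 : IntervalIntegrable (fun x => A₀ * |deriv ζ x|) volume α β :=
      (continuous_const.mul hdζ.abs).intervalIntegrable _ _
    refine h1.mono_fun' ?_ ?_
    · exact ((measurable_a.mul measurable_g).mul hdζ.measurable).aestronglyMeasurable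
    · refine ae_restrict_of_ae ?_
      filter_upwards [haA] with x hx
      rw [Real.norm_eq_abs, abs_mul, abs_mul, abs_of_pos (ha₀.trans_le hx.1)]
      have h4 : a x * |g x| ≤ A₀ * 1 :=
        mul_le_mul hx.2 (abs_g_le x) (abs_nonneg _) ((ha₀.trans_le hx.1).le.trans hx.2)
      calc a x * |g x| * |deriv ζ x| ≤ A₀ * 1 * |deriv ζ x| :=
            mul_le_mul_of_nonneg_right h4 (abs_nonneg _)
        _ = A₀ * |deriv ζ x| := by ring
  rw [← intervalIntegral.integral_add_adjacent_intervals (iP (-R') 0) (iP 0 R'),
    ← intervalIntegral.integral_add_adjacent_intervals (iQ (-R') 0) (iQ 0 R')]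
  congr 1
  · -- left side
    have hl := side (P := fun x => Real.cos (G x))
      (Q := fun x => Real.sin (G x) * Real.cos (G x)) (α := -R') (β := 0) (ζ := ζ)
      (by linarith) (Real.continuous_cos.comp continuous_G)
      (fun x _ _ => ((hasDerivAt_G x).cos).congr_deriv (by ring)) hζ1
      (hz _ (by rw [abs_neg, abs_of_pos hR'0])) hz0
      (((Real.continuous_sin.comp continuous_G).mul
        (Real.continuous_cos.comp continuous_G)).mul hζc |>.intervalIntegrable _ _)
    have e1 : ∫ x in (-R')..0, a x * g x * deriv ζ x =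
        ∫ x in (-R')..0, Real.cos (G x) * deriv ζ x := by
      refine intervalIntegral.integral_congr fun x hx => ?_
      rw [Set.uIcc_of_le (by linarith)] at hx
      simp only [a, g]
      rw [if_pos hx.2, if_pos hx.2, one_mul]
    have e2 : ∫ x in (-R')..0, a x * (Real.sin (φ x) * Real.cos (φ x)) * ζ x =
        ∫ x in (-R')..0, Real.sin (G x) * Real.cos (G x) * ζ x := by
      refine intervalIntegral.integral_congr fun x hx => ?_
      rw [Set.uIcc_of_le (by linarith)] at hx
      simp only [a, φ]
      rw [if_pos hx.2, if_pos hx.2, one_mul]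
    rw [e1, e2]
    exact hl
  · have hr := side (P := p)
      (Q := fun x => a x * (Real.sin (φ x) * Real.cos (φ x))) (α := 0) (β := R') (ζ := ζ)
      hR'0.le continuous_p
      (fun x hx hne => hasDerivAt_p' hx.1 hne) hζ1 hz0
      (hz _ (by rw [abs_of_pos hR'0])) (iQ 0 R')
    rw [← hr]
    refine intervalIntegral.integral_congr_ae (Filter.Eventually.of_forall fun x hx => ?_)
    rw [Set.uIoc_of_le hR'0.le] at hx
    rw [p_eq hx.1]

theorem φ_neg : φ (5 * π / 8) < 0 := by
  have hpi := Real.pi_pos
  unfold φ
  rw [if_neg (by positivity |> not_le.2), if_pos (by unfold x₀; linarith)]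
  unfold M
  apply Real.arcsin_lt_zero.2
  unfold s
  rw [show 4 * (5 * π / 8) / 5 = π / 2 by ring, Real.sin_pi_div_two]
  norm_num

end Pool.Agent.R228.PW
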